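import Mathlib
import Pool.Agent.N1.Poi.Defs
import Pool.Agent.J4.H4.PF.Main

/-!
# MP_d88b0b_al, Q2

The group of Poisson automorphisms of a tensor product of the Poisson algebras `P_{Ωᵢ-ξᵢ}` of i.s.
potentials is finite, also when some of the degrees coincide.

The definitions `PotQuot` (the algebra `P_{Ω-ξ} = k[x,y,z]/(Ω-ξ)`), `potBracket` (its bracket
`{f, g} = det(∇f, ∇g, ∇Ω)`), `IsIsolatedSingularity` and `tensorBracket` (the bracket of the tensor
product) are in `Pool/Agent/N1/Poi/Defs.lean`.
-/

set_option autoImplicit false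

universe u

open scoped TensorProduct
open Pool.Agent.N1.Poi

namespace Pool.Agent.Results.MP_d88b0b_al.FiniteAutomorphisms

/-- The set of algebra automorphisms of `B` that preserve the bracket `br`. -/
def PoissonAut {k B : Type u} [Field k] [CommRing B] [Algebra k B] (br : B →ₗ[k] B →ₗ[k] B) :
    Set (B ≃ₐ[k] B) := {φ | ∀ a b, φ (br a b) = br (φ a) (φ b)}

/-- Let `k` be a field of characteristic zero and let `Ω₁, …, Ω_d` be homogeneous potentials in
`k[x,y,z]` with isolated singularities, of arbitrary degrees at least four (equal degrees are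
allowed), and let `ξ₁, …, ξ_d ∈ k`. Then there are only finitely many `k`-algebra automorphisms of
the tensor product `⨂ᵢ k[x,y,z]/(Ωᵢ - ξᵢ)` that preserve the Poisson bracket. -/
theorem result (k : Type u) [Field k] [CharZero k] (d : ℕ) (n : Fin d → ℕ) (hn : ∀ i, 4 ≤ n i)
    (Ω : Fin d → MvPolynomial (Fin 3) k) (hΩ : ∀ i, (Ω i).IsHomogeneous (n i))
    (hiso : ∀ i, IsIsolatedSingularity (Ω i)) (ξ : Fin d → k) :
    (PoissonAut (tensorBracket (fun i => PotQuot (Ω i) (ξ i))
      fun i => potBracket (Ω i) (ξ i))).Finite := by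
  have h := Pool.Agent.J4.H4.PF.finite_autPoi (ξ := ξ) hn hΩ hiso
  exact Set.finite_coe_iff.1 h

end Pool.Agent.Results.MP_d88b0b_al.FiniteAutomorphisms
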